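import Mathlib

/-!
# MP_314109_co, Q1 disproved

Two families of four subsets of a 5-element set violate the inequality.
-/

namespace Pool.Agent.Results.MP_314109_co.SetDistance

open Finset

/-- `d(A,B) = sqrt(|A \ B|^2 + |B \ A|^2)`. -/
noncomputable def d {n : ℕ} (A B : Finset (Fin n)) : ℝ :=
  Real.sqrt (((A \ B).card : ℝ) ^ 2 + ((B \ A).card : ℝ) ^ 2)

lemma d_eq {n : ℕ} (A B : Finset (Fin n)) (k : ℕ)
    (h : (A \ B).card ^ 2 + (B \ A).card ^ 2 = k) : d A B = Real.sqrt (k : ℝ) := by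
  unfold d
  rw [← h]
  push_cast
  rfl

/-- the first family -/
def A : Fin 4 → Finset (Fin 5) := ![{1, 2}, {0, 3}, {1, 2, 4}, {0, 3, 4}]

/-- the second family -/
def B : Fin 4 → Finset (Fin 5) := ![{0, 1}, {2, 3}, {0, 1, 4}, {2, 3, 4}]

/-- Q1 is false: there are a finite set and two families of `m` distinct subsets for which the sum
of the distances within the families strictly exceeds the sum of the distances across. -/
theorem result : ∃ (n m : ℕ) (A B : Fin m → Finset (Fin n)),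
    Function.Injective A ∧ Function.Injective B ∧
    ∑ i, ∑ j, d (A i) (B j) <
      (∑ i, ∑ j ∈ Ioi i, d (A i) (A j)) + ∑ i, ∑ j ∈ Ioi i, d (B i) (B j) := by
  refine ⟨5, 4, A, B, by decide, by decide, ?_⟩
  have I0 : Ioi (0 : Fin 4) = {1, 2, 3} := by decide
  have I1 : Ioi (1 : Fin 4) = {2, 3} := by decide
  have I2 : Ioi (2 : Fin 4) = {3} := by decide
  have I3 : Ioi (3 : Fin 4) = ∅ := by decide
  simp only [Fin.sum_univ_four, I0, I1, I2, I3, sum_empty, sum_singleton]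
  rw [sum_insert (by decide), sum_insert (by decide), sum_singleton, sum_insert (by decide),
    sum_insert (by decide), sum_insert (by decide), sum_singleton, sum_insert (by decide)]
  simp only [sum_singleton]
  rw [d_eq (A 0) (B 0) 2 (by decide), d_eq (A 0) (B 1) 2 (by decide),
    d_eq (A 0) (B 2) 5 (by decide), d_eq (A 0) (B 3) 5 (by decide),
    d_eq (A 1) (B 0) 2 (by decide), d_eq (A 1) (B 1) 2 (by decide),
    d_eq (A 1) (B 2) 5 (by decide), d_eq (A 1) (B 3) 5 (by decide),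
    d_eq (A 2) (B 0) 5 (by decide), d_eq (A 2) (B 1) 5 (by decide),
    d_eq (A 2) (B 2) 2 (by decide), d_eq (A 2) (B 3) 2 (by decide),
    d_eq (A 3) (B 0) 5 (by decide), d_eq (A 3) (B 1) 5 (by decide),
    d_eq (A 3) (B 2) 2 (by decide), d_eq (A 3) (B 3) 2 (by decide),
    d_eq (A 0) (A 1) 8 (by decide), d_eq (A 0) (A 2) 1 (by decide),
    d_eq (A 0) (A 3) 13 (by decide), d_eq (A 1) (A 2) 13 (by decide),
    d_eq (A 1) (A 3) 1 (by decide), d_eq (A 2) (A 3) 8 (by decide),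
    d_eq (B 0) (B 1) 8 (by decide), d_eq (B 0) (B 2) 1 (by decide),
    d_eq (B 0) (B 3) 13 (by decide), d_eq (B 1) (B 2) 13 (by decide),
    d_eq (B 1) (B 3) 1 (by decide), d_eq (B 2) (B 3) 8 (by decide)]
  have h8 : Real.sqrt ((8 : ℕ) : ℝ) = 2 * Real.sqrt 2 := by
    rw [show ((8 : ℕ) : ℝ) = 2 ^ 2 * 2 by norm_num, Real.sqrt_mul (by norm_num),
      Real.sqrt_sq (by norm_num)]
  have h1 : Real.sqrt ((1 : ℕ) : ℝ) = 1 := by norm_num
  rw [h8, h1]
  push_cast
  have h13 : 3 < Real.sqrt 13 := by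
    apply Real.lt_sqrt_of_sq_lt; norm_num
  have s13 : Real.sqrt 13 ^ 2 = 13 := Real.sq_sqrt (by norm_num)
  have s5 : Real.sqrt 5 ^ 2 = 5 := Real.sq_sqrt (by norm_num)
  have p5 : 0 ≤ Real.sqrt 5 := Real.sqrt_nonneg 5
  have key : 2 * Real.sqrt 5 < 1 + Real.sqrt 13 := by nlinarith
  linarith

end Pool.Agent.Results.MP_314109_co.SetDistance
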